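import Pool.Agent.Work.MP_970e75_an.Discrete

/-!
Every infinite discrete subgroup of `SL_n(ℂ)`, `n ≥ 2`, acting discontinuously on some nonempty
open subset of `P^(n-1)(ℂ)` is a tame discrete subset of `SL_n(ℂ)`.
-/

namespace Pool.Agent.Work.MP_970e75_an.Old.ComplexKleinian

open Filter Topology Matrix Pool.Agent.Work.MP_970e75_an

/-- Key step: an element which is large but bounded modulo `v` maps some point of the cone `U`
to the cone `U`. -/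
theorem exists_meets {n : ℕ} (U : Set (Fin n → ℂ)) (hU : IsOpen U)
    (hcone : ∀ x ∈ U, ∀ c : ℂ, c ≠ 0 → c • x ∈ U) (v : Fin n → ℂ) (hv : v ∈ U)
    (ℓ0 : Fin n → ℂ) (R : ℝ) :
    ∃ S : ℝ, ∀ g : SLn n, ‖toPt ((1 - vecMulVec v ℓ0) * toM g)‖ ≤ R → S < ‖entries g‖ →
      ∃ x ∈ U, toM g *ᵥ x ∈ U := by
  classical
  obtain ⟨ε, hε, hball⟩ := Metric.isOpen_iff.mp hU v hv
  set R' : ℝ := max R 0 with hR'
  have hR0 : 0 ≤ R' := le_max_right _ _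
  set T : ℝ := 2 * (n * (R' * (‖v‖ + ε))) / ε ^ 2 with hT
  have hT0 : 0 ≤ T := by positivity
  refine ⟨R' + ‖v‖ * T, ?_⟩
  intro g hg hS
  have hg' : ‖toPt ((1 - vecMulVec v ℓ0) * toM g)‖ ≤ R' := hg.trans (le_max_left _ _)
  set q : Matrix (Fin n) (Fin n) ℂ := (1 - vecMulVec v ℓ0) * toM g with hq
  set m : Fin n → ℂ := ℓ0 ᵥ* toM g with hm
  -- `m` is large
  have hmT : T < ‖m‖ := by
    have h1 := norm_entries_le v ℓ0 g
    have h2 : ‖v‖ * T < ‖v‖ * ‖m‖ := by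
      have : ‖entries g‖ ≤ R' + ‖v‖ * ‖m‖ := by
        refine h1.trans ?_
        gcongr
      linarith
    exact lt_of_mul_lt_mul_left h2 (norm_nonneg _)
  have hm0 : 0 < ‖m‖ := hT0.trans_lt hmT
  -- a coordinate where `m` is large
  obtain ⟨j, hj⟩ : ∃ j, T < ‖m j‖ := by
    by_contra hcon
    push Not at hcon
    have : ‖m‖ ≤ T := (pi_norm_le_iff_of_nonneg hT0).mpr hcon
    linarith
  -- choose the point `x`
  have hx : ∃ x : Fin n → ℂ, ‖x - v‖ ≤ ε / 2 ∧ ε / 2 * ‖m j‖ ≤ ‖m ⬝ᵥ x‖ := by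
    have key : ∀ s : ℂ, ‖s‖ = 1 → ‖(v + (s * ((ε / 2 : ℝ) : ℂ)) • Pi.single j (1 : ℂ)) - v‖ ≤ ε / 2 := by
      intro s hs
      rw [add_sub_cancel_left, norm_smul, norm_mul, hs, Complex.norm_real, Pi.norm_single]
      simp [abs_of_pos hε]
    by_cases h : ε / 2 * ‖m j‖ ≤ ‖m ⬝ᵥ (v + ((1 : ℂ) * ((ε / 2 : ℝ) : ℂ)) • Pi.single j (1 : ℂ))‖
    · exact ⟨_, key 1 (by simp), h⟩
    · refine ⟨_, key (-1) (by simp), ?_⟩
      push Not at h
      have h1 : m ⬝ᵥ (v + ((1 : ℂ) * ((ε / 2 : ℝ) : ℂ)) • Pi.single j (1 : ℂ))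
          - m ⬝ᵥ (v + ((-1 : ℂ) * ((ε / 2 : ℝ) : ℂ)) • Pi.single j (1 : ℂ))
          = ((ε : ℝ) : ℂ) * m j := by
        rw [dotProduct_add, dotProduct_add, dotProduct_smul, dotProduct_smul, dotProduct_single]
        simp only [smul_eq_mul]
        push_cast
        ring
      have h2 := norm_sub_le
        (m ⬝ᵥ (v + ((1 : ℂ) * ((ε / 2 : ℝ) : ℂ)) • Pi.single j (1 : ℂ)))
        (m ⬝ᵥ (v + ((-1 : ℂ) * ((ε / 2 : ℝ) : ℂ)) • Pi.single j (1 : ℂ)))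
      rw [h1, norm_mul, Complex.norm_real, Real.norm_of_nonneg hε.le] at h2
      linarith
  obtain ⟨x, hxv, hxm⟩ := hx
  have hxU : x ∈ U := by
    apply hball
    rw [Metric.mem_ball, dist_eq_norm]
    linarith
  refine ⟨x, hxU, ?_⟩
  have hgx : toM g *ᵥ x = q *ᵥ x + (m ⬝ᵥ x) • v := by
    conv_lhs => rw [decomp v ℓ0 (toM g)]
    rw [add_mulVec, vecMulVec_mulVec]
    simp [hq, hm]
  have hmx : 0 < ‖m ⬝ᵥ x‖ := by
    have : 0 < ε / 2 * ‖m j‖ := by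
      have := hT0.trans_lt hj
      positivity
    linarith
  have hmx0 : m ⬝ᵥ x ≠ 0 := norm_pos_iff.mp hmx
  have hxn : ‖x‖ ≤ ‖v‖ + ε := by
    have : ‖x‖ ≤ ‖x - v‖ + ‖v‖ := by
      have := norm_add_le (x - v) v
      simpa using this
    linarith
  have hqx : ‖q *ᵥ x‖ ≤ n * (R' * (‖v‖ + ε)) := by
    refine (norm_mulVec_le q x).trans ?_
    gcongr
  have hy : v + (m ⬝ᵥ x)⁻¹ • (q *ᵥ x) ∈ U := by
    apply hball
    rw [Metric.mem_ball, dist_eq_norm, add_sub_cancel_left, norm_smul, norm_inv]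
    rw [inv_mul_lt_iff₀ hmx]
    refine hqx.trans_lt ?_
    have h1 : n * (R' * (‖v‖ + ε)) = T * ε ^ 2 / 2 := by
      rw [hT]
      field_simp
    rw [h1]
    have h2 : T * ε ^ 2 / 2 < (ε / 2 * ‖m j‖) * ε := by
      have : T * (ε ^ 2 / 2) < ‖m j‖ * (ε ^ 2 / 2) := by
        have h3 : 0 < ε ^ 2 / 2 := by positivity
        exact mul_lt_mul_of_pos_right hj h3
      nlinarith
    have h3 : (ε / 2 * ‖m j‖) * ε ≤ ‖m ⬝ᵥ x‖ * ε := by gcongr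
    linarith
  have h2 : toM g *ᵥ x = (m ⬝ᵥ x) • (v + (m ⬝ᵥ x)⁻¹ • (q *ᵥ x)) := by
    rw [hgx, smul_add, smul_inv_smul₀ hmx0, add_comm]
  rw [h2]
  exact hcone _ hy _ hmx0

/-- Let `n ≥ 2` and let `Γ` be an infinite discrete subgroup of `SL_n(ℂ)` which acts
discontinuously on some nonempty open subset of `P^(n-1)(ℂ)`. Then `Γ` is a tame discrete subset
of the Stein manifold `SL_n(ℂ)`. -/
theorem result (n : ℕ) (hn : 2 ≤ n) (Γ : Subgroup (SLn n)) [DiscreteTopology Γ] [Infinite Γ]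
    (hΓ : IsComplexKleinian Γ) : IsTame (Γ : Set (SLn n)) := by
  obtain ⟨U, hU, ⟨v, hv⟩, hne, hcone, hfin⟩ := hΓ
  obtain ⟨ℓ, ℓ0, hℓ, hℓv, hℓ0⟩ := exists_functionals hn v (hne v hv)
  apply isTame_of_proper (Γ : Set (SLn n)) v ℓ ℓ0 hℓ hℓv hℓ0
  intro R
  obtain ⟨S, hS⟩ := exists_meets U hU hcone v hv ℓ0 R
  refine (hfin.union (finite_bounded Γ S)).subset ?_
  rintro γ ⟨hγ, hR⟩
  by_cases h : ‖entries γ‖ ≤ S
  · exact Or.inr ⟨hγ, h⟩
  · push Not at h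
    exact Or.inl ⟨hγ, hS γ hR h⟩

end Pool.Agent.Work.MP_970e75_an.Old.ComplexKleinian
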