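import Pool.Agent.Work.MP_970e75_an.DefsLin
import Pool.Agent.Work.MP_970e75_an.Sl2Tame

/-!
Every infinite discrete subgroup of a closed complex Lie subgroup `G` of `SL_N(ℂ)` whose Lie
algebra contains a copy of `sl₂(ℂ)` is a tame discrete subset of `G`.
-/

namespace Pool.Agent.Work.MP_970e75_an.Old.NonSolvableLinear

open Pool.Agent.Work.MP_970e75_an.Lin

/-- Let `G` be a closed complex Lie subgroup of `SL_N(ℂ)` whose Lie algebra contains a copy of
`sl₂(ℂ)`, for instance `SL_n(ℂ)` with `n ≥ 2`, or any complex semisimple Lie group in a faithful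
representation. Then every infinite discrete subgroup of `G` is a tame discrete subset of `G`. -/
theorem result (N : ℕ) (G : Subgroup (SL N)) (hG : IsComplexSubgroup G) (hsl : ContainsSl2 G)
    (Γ : Subgroup G) [DiscreteTopology Γ] [Infinite Γ] : IsTame G (Γ : Set G) :=
  tame_of_sl2 hG.isClosed hsl Γ

end Pool.Agent.Work.MP_970e75_an.Old.NonSolvableLinear
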