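import Pool.Agent.Work.MP_970e75_an.Discrete

/-!
Every infinite discrete subgroup of `SL_n(ℂ)`, `n ≥ 2`, which commutes with a nonzero antilinear
map of `ℂ^n` or preserves a nonzero sesquilinear form is tame. This covers all discrete subgroups
of all real forms of `SL_n(ℂ)`.
-/

namespace Pool.Agent.Work.MP_970e75_an.Old.RealForms

open Filter Topology Matrix Pool.Agent.Work.MP_970e75_an

variable {n : ℕ}

/-- If all vectors are eigenvectors of the antilinear map `x ↦ A x̄` then `A = 0`. -/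
theorem exists_not_eigen (hn : 2 ≤ n) (A : Matrix (Fin n) (Fin n) ℂ) (hA : A ≠ 0) :
    ∃ v κ : Fin n → ℂ, v ≠ 0 ∧ κ ⬝ᵥ v = 0 ∧ κ ⬝ᵥ (A *ᵥ star v) = 1 := by
  classical
  by_contra hcon
  push Not at hcon
  -- functionals killing `v` kill `A v̄`
  have key : ∀ v κ : Fin n → ℂ, κ ⬝ᵥ v = 0 → κ ⬝ᵥ (A *ᵥ star v) = 0 := by
    intro v κ h1
    by_contra h2
    have hv : v ≠ 0 := by
      rintro rfl
      apply h2
      simp
    apply hcon v ((κ ⬝ᵥ (A *ᵥ star v))⁻¹ • κ) hv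
    · rw [smul_dotProduct, h1, smul_zero]
    · rw [smul_dotProduct, smul_eq_mul, inv_mul_cancel₀ h2]
  apply hA
  ext i j
  rw [Matrix.zero_apply]
  have hcol : ∀ i j : Fin n, (A *ᵥ star (Pi.single j (1 : ℂ))) i = A i j := by
    intro i j
    have : star (Pi.single j (1 : ℂ) : Fin n → ℂ) = Pi.single j 1 := by
      funext k
      by_cases h : k = j
      · subst h; simp
      · simp [h]
    rw [this]
    simp
  -- off-diagonal entries vanish
  have hoff : ∀ i j : Fin n, i ≠ j → A i j = 0 := by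
    intro i j hij
    have h1 : (Pi.single i (1 : ℂ) : Fin n → ℂ) ⬝ᵥ (Pi.single j (1 : ℂ) : Fin n → ℂ) = 0 := by
      rw [single_dotProduct]
      simp [hij]
    have h2 := key _ _ h1
    rw [single_dotProduct, hcol, one_mul] at h2
    exact h2
  by_cases hij : i = j
  · subst hij
    have : Nontrivial (Fin n) := Fin.nontrivial_iff_two_le.mpr hn
    obtain ⟨k, hk⟩ := exists_ne i
    -- test with `v = e_i + c e_k` and `κ = c e_i - e_k`
    have htest : ∀ c : ℂ, c * A i i = star c * A k k := by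
      intro c
      have h1 : ((c • Pi.single i (1 : ℂ) - Pi.single k 1 : Fin n → ℂ)) ⬝ᵥ
          (Pi.single i (1 : ℂ) + c • Pi.single k 1 : Fin n → ℂ) = 0 := by
        simp [sub_dotProduct, dotProduct_add, smul_dotProduct, dotProduct_smul,
          single_dotProduct, hk, hk.symm]
      have h2 := key _ _ h1
      have h3 : star (Pi.single i (1 : ℂ) + c • Pi.single k 1 : Fin n → ℂ)
          = star (Pi.single i (1 : ℂ) : Fin n → ℂ) + star c • star (Pi.single k (1 : ℂ) : Fin n → ℂ) := by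
        rw [star_add, star_smul]
      rw [h3, mulVec_add, mulVec_smul] at h2
      rw [sub_dotProduct, smul_dotProduct, single_dotProduct, single_dotProduct] at h2
      simp only [Pi.add_apply, Pi.smul_apply, hcol, smul_eq_mul, one_mul] at h2
      rw [hoff i k hk.symm, hoff k i hk] at h2
      simp only [mul_zero, add_zero, zero_add] at h2
      exact sub_eq_zero.mp h2
    have h1 := htest 1
    have hI := htest Complex.I
    simp only [star_one, one_mul] at h1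
    rw [← h1] at hI
    have h4 : (star Complex.I : ℂ) = -Complex.I := Complex.conj_I
    rw [h4] at hI
    have h5 : Complex.I * (2 * A i i) = 0 := by linear_combination hI
    rcases mul_eq_zero.mp h5 with h | h
    · exact absurd h Complex.I_ne_zero
    · simpa using h
  · exact hoff i j hij

theorem toPt_star (q : Matrix (Fin n) (Fin n) ℂ) : ‖toPt (q.map star)‖ = ‖toPt q‖ := by
  have : toPt (q.map star) = star (toPt q) := rfl
  rw [this, norm_star]

/-- The antilinear case. -/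
theorem tame_of_antilinear (hn : 2 ≤ n) (Γ : Subgroup (SLn n)) [DiscreteTopology Γ]
    (A : Matrix (Fin n) (Fin n) ℂ) (hA : A ≠ 0)
    (hΓ : ∀ γ ∈ Γ, toM γ * A = A * (toM γ).map star) : IsTame (Γ : Set (SLn n)) := by
  obtain ⟨v, κ, hv, hκv, hκA⟩ := exists_not_eigen hn A hA
  apply isTame_of_bound hn Γ v hv
  intro ℓ0 hℓ0 R hR
  refine ⟨n * (n * (‖κ‖ * R) * ‖toPt A‖) + n * (n * (‖κ‖ * ‖toPt A‖) * R), ?_⟩
  intro γ hγ hq
  set q : Matrix (Fin n) (Fin n) ℂ := (1 - vecMulVec v ℓ0) * toM γ with hqdef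
  set m : Fin n → ℂ := ℓ0 ᵥ* toM γ with hm
  have hdec : toM γ = q + vecMulVec v m := decomp v ℓ0 (toM γ)
  have hstar : star m = (κ ᵥ* q) ᵥ* A - (κ ᵥ* A) ᵥ* (q.map star) := by
    have h1 : (κ ᵥ* toM γ) ᵥ* A = (κ ᵥ* A) ᵥ* ((toM γ).map star) := by
      rw [vecMul_vecMul, vecMul_vecMul, hΓ γ hγ]
    have h2 : κ ᵥ* toM γ = κ ᵥ* q := by
      conv_lhs => rw [hdec]
      rw [vecMul_add, vecMul_vecMulVec, hκv, zero_smul, add_zero]
    have h3 : (toM γ).map star = q.map star + vecMulVec (star v) (star m) := by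
      conv_lhs => rw [hdec]
      ext i j
      simp [vecMulVec_apply]
    rw [h2, h3, vecMul_add, vecMul_vecMulVec, ← dotProduct_mulVec, hκA, one_smul] at h1
    rw [h1]
    abel
  have hn1 : ‖m‖ = ‖star m‖ := (norm_star m).symm
  rw [hn1, hstar]
  refine (norm_sub_le _ _).trans ?_
  have e1 : ‖κ ᵥ* q‖ ≤ n * (‖κ‖ * R) := (norm_vecMul_le κ q).trans (by gcongr)
  have e2 : ‖(κ ᵥ* q) ᵥ* A‖ ≤ n * (n * (‖κ‖ * R) * ‖toPt A‖) :=
    (norm_vecMul_le _ A).trans (by gcongr)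
  have e3 : ‖κ ᵥ* A‖ ≤ n * (‖κ‖ * ‖toPt A‖) := norm_vecMul_le κ A
  have e4 : ‖(κ ᵥ* A) ᵥ* (q.map star)‖ ≤ n * (n * (‖κ‖ * ‖toPt A‖) * R) := by
    refine (norm_vecMul_le _ _).trans ?_
    rw [toPt_star]
    gcongr
  linarith

/-- A nonzero sesquilinear form is nonzero on some diagonal pair. -/
theorem exists_form_ne_zero (B : Matrix (Fin n) (Fin n) ℂ) (hB : B ≠ 0) :
    ∃ v : Fin n → ℂ, star v ⬝ᵥ (B *ᵥ v) ≠ 0 := by
  classical
  by_contra hcon
  push Not at hcon
  apply hB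
  have hpol : ∀ x y : Fin n → ℂ, star x ⬝ᵥ (B *ᵥ y) = 0 := by
    intro x y
    have h1 := hcon (x + y)
    have h2 := hcon (x + Complex.I • y)
    have hx := hcon x
    have hy := hcon y
    simp only [star_add, star_smul, mulVec_add, mulVec_smul, add_dotProduct, dotProduct_add,
      smul_dotProduct, dotProduct_smul, hx, hy, smul_zero, zero_add, add_zero] at h1 h2
    have h3 : (star Complex.I : ℂ) = -Complex.I := Complex.conj_I
    rw [h3] at h2
    simp only [smul_eq_mul] at h2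
    have h4 : Complex.I * (2 * (star x ⬝ᵥ (B *ᵥ y))) = 0 := by
      linear_combination h2 + Complex.I * h1
    rcases mul_eq_zero.mp h4 with h | h
    · exact absurd h Complex.I_ne_zero
    · simpa using h
  ext i j
  have := hpol (Pi.single i 1) (Pi.single j 1)
  have hs : star (Pi.single i (1 : ℂ) : Fin n → ℂ) = Pi.single i 1 := by
    funext k
    by_cases h : k = i
    · subst h; simp
    · simp [h]
  rw [hs, single_dotProduct] at this
  simpa using this

/-- The sesquilinear case. -/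
theorem tame_of_sesquilinear (hn : 2 ≤ n) (Γ : Subgroup (SLn n)) [DiscreteTopology Γ]
    (B : Matrix (Fin n) (Fin n) ℂ) (hB : B ≠ 0)
    (hΓ : ∀ γ ∈ Γ, (toM γ).conjTranspose * B * toM γ = B) : IsTame (Γ : Set (SLn n)) := by
  classical
  obtain ⟨v, hβ⟩ := exists_form_ne_zero B hB
  have hv : v ≠ 0 := by
    rintro rfl
    apply hβ
    simp
  apply isTame_of_bound hn Γ v hv
  intro ℓ0 hℓ0 R hR
  set β : ℂ := star v ⬝ᵥ (B *ᵥ v) with hβdef
  have hβ0 : 0 < ‖β‖ := norm_pos_iff.mpr hβ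
  -- constants
  set b : ℝ := ‖toPt B‖ with hb
  set C1 : ℝ := n * (‖v‖ * (n * (b * (n * R)))) + n * ((n * R) * (n * (b * ‖v‖))) with hC1
  set C2 : ℝ := n * ((n * R) * (n * (b * (n * R)))) + n * (1 * (n * (b * 1))) with hC2
  have hC1' : 0 ≤ C1 := by positivity
  have hC2' : 0 ≤ C2 := by positivity
  refine ⟨(C1 + C2) / ‖β‖ + 1, ?_⟩
  intro γ hγ hq
  set q : Matrix (Fin n) (Fin n) ℂ := (1 - vecMulVec v ℓ0) * toM γ with hqdef
  set m : Fin n → ℂ := ℓ0 ᵥ* toM γ with hm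
  have hdec : toM γ = q + vecMulVec v m := decomp v ℓ0 (toM γ)
  rw [pi_norm_le_iff_of_nonneg (by positivity)]
  intro j
  set x : Fin n → ℂ := Pi.single j 1 with hx
  have hxn : ‖x‖ = 1 := by rw [hx, Pi.norm_single]; simp
  have hinv : star (toM γ *ᵥ x) ⬝ᵥ (B *ᵥ (toM γ *ᵥ x)) = star x ⬝ᵥ (B *ᵥ x) := by
    conv_rhs => rw [← hΓ γ hγ]
    rw [star_mulVec, ← dotProduct_mulVec, mulVec_mulVec, mulVec_mulVec, Matrix.mul_assoc]
  have hgx : toM γ *ᵥ x = q *ᵥ x + (m j) • v := by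
    conv_lhs => rw [hdec]
    rw [add_mulVec, vecMulVec_mulVec]
    simp [hx]
  set y : Fin n → ℂ := q *ᵥ x with hy
  have hyn : ‖y‖ ≤ n * R := by
    refine (norm_mulVec_le q x).trans ?_
    rw [hxn, mul_one]
    gcongr
  rw [hgx] at hinv
  have hexp : star (m j) * m j * β = star x ⬝ᵥ (B *ᵥ x) - star y ⬝ᵥ (B *ᵥ y)
      - m j * (star y ⬝ᵥ (B *ᵥ v)) - star (m j) * (star v ⬝ᵥ (B *ᵥ y)) := by
    simp only [star_add, star_smul, mulVec_add, mulVec_smul, add_dotProduct, dotProduct_add,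
      smul_dotProduct, dotProduct_smul, smul_eq_mul] at hinv
    rw [hβdef]
    linear_combination hinv
  -- estimates
  have hBy : ‖B *ᵥ y‖ ≤ n * (b * (n * R)) := (norm_mulVec_le B y).trans (by gcongr)
  have hBv : ‖B *ᵥ v‖ ≤ n * (b * ‖v‖) := norm_mulVec_le B v
  have hBx : ‖B *ᵥ x‖ ≤ n * (b * 1) := (norm_mulVec_le B x).trans (by rw [hxn])
  have f1 : ‖star x ⬝ᵥ (B *ᵥ x)‖ ≤ n * (1 * (n * (b * 1))) := by
    refine (norm_dotProduct_le' _ _).trans ?_
    rw [norm_star, hxn]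
    gcongr
  have f2 : ‖star y ⬝ᵥ (B *ᵥ y)‖ ≤ n * ((n * R) * (n * (b * (n * R)))) := by
    refine (norm_dotProduct_le' _ _).trans ?_
    rw [norm_star]
    gcongr
  have f3 : ‖star y ⬝ᵥ (B *ᵥ v)‖ ≤ n * ((n * R) * (n * (b * ‖v‖))) := by
    refine (norm_dotProduct_le' _ _).trans ?_
    rw [norm_star]
    gcongr
  have f4 : ‖star v ⬝ᵥ (B *ᵥ y)‖ ≤ n * (‖v‖ * (n * (b * (n * R)))) := by
    refine (norm_dotProduct_le' _ _).trans ?_
    rw [norm_star]
    gcongr
  set s : ℝ := ‖m j‖ with hs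
  have hs0 : 0 ≤ s := norm_nonneg _
  have hmain : s * s * ‖β‖ ≤ C2 + s * C1 := by
    have h1 : ‖star (m j) * m j * β‖ = s * s * ‖β‖ := by
      rw [norm_mul, norm_mul, norm_star]
    rw [← h1, hexp]
    have g1 := norm_sub_le (star x ⬝ᵥ (B *ᵥ x) - star y ⬝ᵥ (B *ᵥ y)
      - m j * (star y ⬝ᵥ (B *ᵥ v))) (star (m j) * (star v ⬝ᵥ (B *ᵥ y)))
    have g2 := norm_sub_le (star x ⬝ᵥ (B *ᵥ x) - star y ⬝ᵥ (B *ᵥ y)) (m j * (star y ⬝ᵥ (B *ᵥ v)))
    have g3 := norm_sub_le (star x ⬝ᵥ (B *ᵥ x)) (star y ⬝ᵥ (B *ᵥ y))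
    have g4 : ‖m j * (star y ⬝ᵥ (B *ᵥ v))‖ ≤ s * (n * ((n * R) * (n * (b * ‖v‖)))) := by
      rw [norm_mul]; gcongr
    have g5 : ‖star (m j) * (star v ⬝ᵥ (B *ᵥ y))‖ ≤ s * (n * (‖v‖ * (n * (b * (n * R))))) := by
      rw [norm_mul, norm_star]; gcongr
    rw [hC1, hC2]
    linarith
  by_contra hcon
  push Not at hcon
  have hs1 : 1 < s := by
    have : 0 ≤ (C1 + C2) / ‖β‖ := by positivity
    linarith
  have hs2 : (C1 + C2) < s * ‖β‖ := by
    have : (C1 + C2) / ‖β‖ < s := by linarith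
    rwa [div_lt_iff₀ hβ0] at this
  have h3 : s * (C1 + C2) < s * (s * ‖β‖) := mul_lt_mul_of_pos_left hs2 (by linarith)
  have h4 : C2 ≤ s * C2 := by nlinarith
  linarith

/-- Let `n ≥ 2` and let `Γ` be an infinite discrete subgroup of `SL_n(ℂ)` which commutes with a
nonzero antilinear map of `ℂ^n` or preserves a nonzero sesquilinear form on `ℂ^n` (for instance,
any infinite discrete subgroup of a real form of `SL_n(ℂ)`). Then `Γ` is tame. -/
theorem result (n : ℕ) (hn : 2 ≤ n) (Γ : Subgroup (SLn n)) [DiscreteTopology Γ] [Infinite Γ]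
    (hΓ : HasAntilinearInvariant Γ) : IsTame (Γ : Set (SLn n)) := by
  rcases hΓ with ⟨A, hA, h⟩ | ⟨B, hB, h⟩
  · exact tame_of_antilinear hn Γ A hA h
  · exact tame_of_sesquilinear hn Γ B hB h

end Pool.Agent.Work.MP_970e75_an.Old.RealForms
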