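import Pool.Agent.Work.MP_970e75_an.Gen.Final

open scoped Manifold ContDiff Topology
open Pool.Agent.Work.MP_970e75_an.Gen

/-- Let `G` be a complex Lie group (modelled on `E`) with an open subgroup `G₀` (embedded by `j`,
with holomorphic inverse `k`; for connected `G` take `G₀ = G`) which is of kind one or of kind two.
Then every discrete subgroup of `G` is a tame subset of the complex manifold `G`. By the structure
theory recalled in the file `Types`, this applies to every Stein complex Lie group whose identity
component has dimension at least two. -/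
theorem Pool.Agent.Work.MP_970e75_an.Old.SteinGroups.result
    {E : Type} [NormedAddCommGroup E] [NormedSpace ℂ E]
    {G : Type} [TopologicalSpace G] [ChartedSpace E G] [Group G] [LieGroup 𝓘(ℂ, E) ω G]
    {G₀ : Type} [TopologicalSpace G₀] [ChartedSpace E G₀] [Group G₀] [LieGroup 𝓘(ℂ, E) ω G₀]
    (h : IsKindOne E G₀ ∨ IsKindTwo E G₀)
    (j : G₀ →* G) (hj : Topology.IsOpenEmbedding j) (hj1 : MDifferentiable 𝓘(ℂ, E) 𝓘(ℂ, E) j)
    (k : G → G₀) (hk : ∀ g, k (j g) = g)
    (hk1 : MDifferentiableOn 𝓘(ℂ, E) 𝓘(ℂ, E) k (Set.range j))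
    (Γ : Subgroup G) [DiscreteTopology Γ] : IsTame E (Γ : Set G) :=
  tame_final h j hj hj1 k hk hk1 Γ
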