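import Pool.Agent.Work.MP_970e75_an.Full.Main

/-!
Every discrete subgroup of a Stein complex Lie group of dimension at least two is tame.
-/

namespace Pool.Agent.Work.MP_970e75_an.Old.SteinLieGroups

open scoped Manifold ContDiff
open Pool.Agent.Work.MP_970e75_an.Gen

/-- Let `G` be a complex Lie group of (finite) dimension at least two, connected or not, whose
underlying complex manifold is Stein. Then every discrete subgroup `Γ` of `G` is a tame subset of
the complex manifold `G`. -/
theorem result {E : Type} [NormedAddCommGroup E] [NormedSpace ℂ E] [FiniteDimensional ℂ E]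
    (hE : 2 ≤ Module.finrank ℂ E)
    {G : Type} [TopologicalSpace G] [ChartedSpace E G] [Group G] [LieGroup 𝓘(ℂ, E) ω G]
    (hG : IsStein E G) (Γ : Subgroup G) [DiscreteTopology Γ] : IsTame E (Γ : Set G) :=
  Pool.Agent.Work.MP_970e75_an.Full.stmt_Main E G hE hG Γ inferInstance

end Pool.Agent.Work.MP_970e75_an.Old.SteinLieGroups
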